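import Pool.Agent.H32.F14.Iface

/-!
# Part D2a of MP_39c6f6_co : the inequality of a cluster
-/

set_option autoImplicit false
set_option linter.unusedSectionVars false

noncomputable section

open Classical

namespace Pool.Agent.H11.F14

open Pool.Agent.H32.F14

variable {ι β J H : Type} [Fintype ι] [Fintype β] [Fintype J] [Fintype H]

lemma eA_le_dC (e : ι → β → ℕ) (A : Finset ι) (C : β) : eA e A C ≤ dC e C :=
  Finset.sum_le_univ_sum_of_nonneg (fun _ => Nat.zero_le _)

lemma eA_mono (e : ι → β → ℕ) {A B : Finset ι} (h : A ⊆ B) (C : β) : eA e A C ≤ eA e B C :=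
  Finset.sum_le_sum_of_subset h

lemma eA_full (e : ι → β → ℕ) {A : Finset ι} {C : β} (h : eA e A C = dC e C) :
    ∀ s, s ∉ A → e s C = 0 := by
  intro s hs
  have h1 : eA e A C + e s C ≤ dC e C := by
    unfold eA dC
    have : ∑ t ∈ insert s A, e t C ≤ ∑ t, e t C :=
      Finset.sum_le_univ_sum_of_nonneg (fun _ => Nat.zero_le _)
    rw [Finset.sum_insert hs] at this
    omega
  omega

lemma eA_Aj {e : ι → β → ℕ} {dem : ι → ℕ} {Z : J → Finset ι} {X : H → Finset ι}
    {I : J → Finset H} {gam : J → ℕ} (h : IsCS e dem Z X I gam) (j : J) (C : β) :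
    eA e (Aj Z X I j) C = eA e (Z j) C + ∑ i ∈ I j, eA e (X i) C := by
  unfold eA Aj
  rw [Finset.sum_union, Finset.sum_biUnion]
  · intro i _ i' _ hii
    exact h.XX i i' hii
  · rw [Finset.disjoint_biUnion_right]
    intro i _
    exact h.ZX j i

lemma demA_Aj {e : ι → β → ℕ} {dem : ι → ℕ} {Z : J → Finset ι} {X : H → Finset ι}
    {I : J → Finset H} {gam : J → ℕ} (h : IsCS e dem Z X I gam) (j : J) :
    demA dem (Aj Z X I j) = demA dem (Z j) + ∑ i ∈ I j, demA dem (X i) := by
  unfold demA Aj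
  rw [Finset.sum_union, Finset.sum_biUnion]
  · intro i _ i' _ hii
    exact h.XX i i' hii
  · rw [Finset.disjoint_biUnion_right]
    intro i _
    exact h.ZX j i

/-- the raw form of (U) -/
lemma rawU {e : ι → β → ℕ} {dem : ι → ℕ} {Z : J → Finset ι} {X : H → Finset ι}
    {I : J → Finset H} {gam : J → ℕ} (h : IsCS e dem Z X I gam) (j : J) :
    (∑ C, min (uC e C) (eA e (Z j) C + ∑ i ∈ I j, eA e (X i) C)) + (I j).card =
      demA dem (Z j) + gam j + ∑ C, ∑ i ∈ I j, min (uC e C) (eA e (X i) C) := by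
  have h1 := h.rAj j
  rw [demA_Aj h j] at h1
  have h2 : ∑ i ∈ I j, rA e (X i) = ∑ i ∈ I j, demA dem (X i) + (I j).card := by
    rw [Finset.sum_congr rfl (fun i _ => h.rX i), Finset.sum_add_distrib]
    simp
  have h3 : rA e (Aj Z X I j) =
      ∑ C, min (uC e C) (eA e (Z j) C + ∑ i ∈ I j, eA e (X i) C) := by
    unfold rA
    exact Finset.sum_congr rfl (fun C _ => by rw [eA_Aj h j C])
  have h4 : ∑ i ∈ I j, rA e (X i) = ∑ C, ∑ i ∈ I j, min (uC e C) (eA e (X i) C) := by
    unfold rA
    rw [Finset.sum_comm]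
  omega

section defs
variable (e : ι → β → ℕ) (Z : J → Finset ι) (X : H → Finset ι) (I : J → Finset H) (j : J)

/-- inner components -/
def isIn (C : β) : Prop :=
  dC e C ≠ 3 ∧ (∀ i ∈ I j, eA e (X i) C = 0) ∧ eA e (Z j) C = dC e C

/-- other 5+ components touching `Z j`, no hub -/
def isUn (C : β) : Prop :=
  dC e C ≠ 3 ∧ (∀ i ∈ I j, eA e (X i) C = 0) ∧ eA e (Z j) C ≠ 0 ∧ eA e (Z j) C ≠ dC e C

def fIn (C : β) : ℕ := if isIn e Z X I j C then 1 else 0
def fUn (C : β) : ℕ := if isUn e Z X I j C then 1 else 0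
def fAl (C : β) : ℕ := if dC e C = 3 ∧ eA e (Z j) C = 3 then 1 else 0
def fB1 (C : β) : ℕ := if C ∈ beta e Z X I j ∧ eA e (Z j) C = 0 then 1 else 0
def fB2 (C : β) : ℕ := if C ∈ beta e Z X I j ∧ eA e (Z j) C = 1 then 1 else 0
def fB3 (C : β) : ℕ := if C ∈ beta e Z X I j ∧ eA e (Z j) C = 2 then 1 else 0
def fW (C : β) : ℕ := if dC e C = 3 ∧ eA e (Aj Z X I j) C < 3 then eA e (Z j) C else 0
def fH (C : β) : ℕ := if dC e C ≠ 3 ∧ ∃ i ∈ I j, eA e (X i) C ≠ 0 then eA e (Z j) C else 0

end defs

lemma mem_beta {e : ι → β → ℕ} {Z : J → Finset ι} {X : H → Finset ι} {I : J → Finset H} {j : J}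
    {C : β} : C ∈ beta e Z X I j ↔ (dC e C = 3 ∧ eA e (Aj Z X I j) C = 3 ∧ eA e (Z j) C ≠ 3 ∧
    ∀ i ∈ I j, eA e (X i) C ≠ 3) := by
  unfold beta
  simp

/-- 5+ component touching a hub of `I j`: sums over the hubs are single terms -/
lemma five_hub {e : ι → β → ℕ} {dem : ι → ℕ} {Z : J → Finset ι} {X : H → Finset ι}
    {I : J → Finset H} {gam : J → ℕ} (h : IsCS e dem Z X I gam) {j : J} {C : β}
    (hC : dC e C ≠ 3) {i : H} (hi : i ∈ I j) (hx : eA e (X i) C ≠ 0) (g : ℕ → ℕ) (g0 : g 0 = 0) :
    ∑ i' ∈ I j, g (eA e (X i') C) = g (eA e (X i) C) := by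
  apply Finset.sum_eq_single_of_mem i hi
  intro i' _ hne
  rcases h.excl5 i i' (fun hh => hne hh.symm) C hC with h1 | h1
  · exact absurd h1 hx
  · rw [h1, g0]

lemma pw1 {e : ι → β → ℕ} {full dem : ι → ℕ} {Z : J → Finset ι} {X : H → Finset ι}
    {I : J → Finset H} {gam : J → ℕ} (hB : DBase e full dem) (h : IsCS e dem Z X I gam) (j : J)
    (C : β) :
    min (uC e C) (eA e (Z j) C + ∑ i ∈ I j, eA e (X i) C) + fB1 e Z X I j C =
      ∑ i ∈ I j, min (uC e C) (eA e (X i) C) +
        (fIn e Z X I j C + fUn e Z X I j C + 2 * fAl e Z j C + fB3 e Z X I j C +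
          fW e Z X I j C) := by
  have hT := eA_Aj h j C
  have hTle := eA_le_dC e (Aj Z X I j) C
  have hge := hB.ge3 C
  by_cases hd : dC e C = 3
  · -- 3-component
    have hu : uC e C = 2 := by unfold uC; simp [hd]
    have hin : fIn e Z X I j C = 0 := by unfold fIn isIn; simp [hd]
    have hun : fUn e Z X I j C = 0 := by unfold fUn isUn; simp [hd]
    rw [hu, hin, hun]
    by_cases hx : ∃ i0 ∈ I j, eA e (X i0) C = 3
    · obtain ⟨i0, hi0, hx0⟩ := hx
      have hle : eA e (X i0) C ≤ ∑ i ∈ I j, eA e (X i) C :=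
        Finset.single_le_sum (f := fun i => eA e (X i) C) (fun _ _ => Nat.zero_le _) hi0
      have hs : ∑ i ∈ I j, eA e (X i) C = 3 := by omega
      have hz : eA e (Z j) C = 0 := by omega
      have hm : ∑ i ∈ I j, min 2 (eA e (X i) C) = 2 := by
        rw [Finset.sum_eq_single_of_mem i0 hi0]
        · rw [hx0]; rfl
        · intro i' hi' hne
          have h2 : eA e (X i0) C + eA e (X i') C ≤ ∑ i ∈ I j, eA e (X i) C := by
            have h3 : ∑ i ∈ ({i0, i'} : Finset H), eA e (X i) C ≤ ∑ i ∈ I j, eA e (X i) C := by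
              apply Finset.sum_le_sum_of_subset
              intro k hk
              simp only [Finset.mem_insert, Finset.mem_singleton] at hk
              rcases hk with rfl | rfl
              · exact hi0
              · exact hi'
            rwa [Finset.sum_pair (fun hh => hne hh.symm)] at h3
          have h4 : eA e (X i') C = 0 := by omega
          rw [h4]; rfl
      have hnb : C ∉ beta e Z X I j := by
        rw [mem_beta]
        rintro ⟨_, _, _, h5⟩
        exact h5 i0 hi0 hx0
      have h1 : fB1 e Z X I j C = 0 := by unfold fB1; simp [hnb]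
      have h3 : fB3 e Z X I j C = 0 := by unfold fB3; simp [hnb]
      have ha : fAl e Z j C = 0 := by unfold fAl; rw [if_neg]; rintro ⟨_, h6⟩; omega
      have hw : fW e Z X I j C = 0 := by unfold fW; rw [if_neg]; rintro ⟨_, h6⟩; omega
      rw [h1, h3, ha, hw, hm, hs, hz]
      rfl
    · have hx' : ∀ i ∈ I j, eA e (X i) C ≠ 3 := fun i hi h3 => hx ⟨i, hi, h3⟩
      have hm : ∑ i ∈ I j, min 2 (eA e (X i) C) = ∑ i ∈ I j, eA e (X i) C := by
        apply Finset.sum_congr rfl
        intro i hi
        have h1 : eA e (X i) C ≤ ∑ i ∈ I j, eA e (X i) C :=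
          Finset.single_le_sum (f := fun i => eA e (X i) C) (fun _ _ => Nat.zero_le _) hi
        have h2 := hx' i hi
        omega
      rw [hm]
      by_cases hT3 : eA e (Aj Z X I j) C = 3
      · have hw : fW e Z X I j C = 0 := by unfold fW; rw [if_neg]; rintro ⟨_, h6⟩; omega
        rw [hw]
        by_cases hz3 : eA e (Z j) C = 3
        · have hnb : C ∉ beta e Z X I j := by
            rw [mem_beta]
            rintro ⟨_, _, h5, _⟩
            exact h5 hz3
          have h1 : fB1 e Z X I j C = 0 := by unfold fB1; simp [hnb]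
          have h3 : fB3 e Z X I j C = 0 := by unfold fB3; simp [hnb]
          have ha : fAl e Z j C = 1 := by unfold fAl; simp [hd, hz3]
          rw [h1, h3, ha]
          omega
        · have hb : C ∈ beta e Z X I j := by
            rw [mem_beta]; exact ⟨hd, hT3, hz3, hx'⟩
          have ha : fAl e Z j C = 0 := by unfold fAl; simp [hz3]
          have h1 : fB1 e Z X I j C = if eA e (Z j) C = 0 then 1 else 0 := by
            unfold fB1; simp [hb]
          have h3 : fB3 e Z X I j C = if eA e (Z j) C = 2 then 1 else 0 := by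
            unfold fB3; simp [hb]
          rw [ha, h1, h3]
          split_ifs <;> omega
      · have hnb : C ∉ beta e Z X I j := by
          rw [mem_beta]
          rintro ⟨_, h5, _, _⟩
          exact hT3 h5
        have h1 : fB1 e Z X I j C = 0 := by unfold fB1; simp [hnb]
        have h3 : fB3 e Z X I j C = 0 := by unfold fB3; simp [hnb]
        have ha : fAl e Z j C = 0 := by unfold fAl; rw [if_neg]; rintro ⟨_, h6⟩; omega
        have hw : fW e Z X I j C = eA e (Z j) C := by
          unfold fW; rw [if_pos]; exact ⟨hd, by omega⟩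
        rw [h1, h3, ha, hw]
        omega
  · -- 5+ component
    have hu : uC e C = 1 := by unfold uC; simp [hd]
    have hnb : C ∉ beta e Z X I j := by
      rw [mem_beta]
      rintro ⟨h5, _⟩
      exact hd h5
    have h1 : fB1 e Z X I j C = 0 := by unfold fB1; simp [hnb]
    have h3 : fB3 e Z X I j C = 0 := by unfold fB3; simp [hnb]
    have ha : fAl e Z j C = 0 := by unfold fAl; simp [hd]
    have hw : fW e Z X I j C = 0 := by unfold fW; simp [hd]
    rw [hu, h1, h3, ha, hw]
    by_cases hx : ∃ i0 ∈ I j, eA e (X i0) C ≠ 0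
    · obtain ⟨i0, hi0, hx0⟩ := hx
      have hin : fIn e Z X I j C = 0 := by
        unfold fIn isIn; rw [if_neg]; rintro ⟨_, h5, _⟩; exact hx0 (h5 i0 hi0)
      have hun : fUn e Z X I j C = 0 := by
        unfold fUn isUn; rw [if_neg]; rintro ⟨_, h5, _⟩; exact hx0 (h5 i0 hi0)
      rw [hin, hun, five_hub h hd hi0 hx0 (fun t => min 1 t) rfl]
      have h5 : ∑ i ∈ I j, eA e (X i) C = eA e (X i0) C :=
        five_hub h hd hi0 hx0 (fun t => t) rfl
      rw [h5]
      show min 1 (eA e (Z j) C + eA e (X i0) C) + 0 = min 1 (eA e (X i0) C) + (0 + 0 + 2 * 0 + 0 + 0)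
      omega
    · have hx' : ∀ i ∈ I j, eA e (X i) C = 0 := by
        intro i hi
        by_contra h5
        exact hx ⟨i, hi, h5⟩
      have hs : ∑ i ∈ I j, eA e (X i) C = 0 := Finset.sum_eq_zero hx'
      have hs' : ∑ i ∈ I j, min 1 (eA e (X i) C) = 0 :=
        Finset.sum_eq_zero (fun i hi => by rw [hx' i hi]; rfl)
      have hin : fIn e Z X I j C = if eA e (Z j) C = dC e C then 1 else 0 := by
        unfold fIn isIn; simp only [hd, ne_eq, not_false_eq_true, true_and]
        by_cases h6 : eA e (Z j) C = dC e C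
        · rw [if_pos ⟨hx', h6⟩, if_pos h6]
        · rw [if_neg (fun h7 => h6 h7.2), if_neg h6]
      have hun : fUn e Z X I j C =
          if eA e (Z j) C ≠ 0 ∧ eA e (Z j) C ≠ dC e C then 1 else 0 := by
        unfold fUn isUn
        by_cases h6 : eA e (Z j) C ≠ 0 ∧ eA e (Z j) C ≠ dC e C
        · rw [if_pos ⟨hd, hx', h6.1, h6.2⟩, if_pos h6]
        · rw [if_neg (fun h7 => h6 ⟨h7.2.2.1, h7.2.2.2⟩), if_neg h6]
      rw [hs, hs', hin, hun]
      split_ifs <;> omega


lemma pw2 {e : ι → β → ℕ} {full dem : ι → ℕ} {Z : J → Finset ι} {X : H → Finset ι}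
    {I : J → Finset H} {gam : J → ℕ} (hB : DBase e full dem) (h : IsCS e dem Z X I gam) (j : J)
    (C : β) :
    eA e (Z j) C = dC e C * fIn e Z X I j C + eA e (Z j) C * fUn e Z X I j C + fH e Z X I j C +
      3 * fAl e Z j C + 2 * fB3 e Z X I j C + fB2 e Z X I j C + fW e Z X I j C := by
  have hT := eA_Aj h j C
  have hTle := eA_le_dC e (Aj Z X I j) C
  have hge := hB.ge3 C
  by_cases hd : dC e C = 3
  · have hin : fIn e Z X I j C = 0 := by unfold fIn isIn; simp [hd]
    have hun : fUn e Z X I j C = 0 := by unfold fUn isUn; simp [hd]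
    have hh : fH e Z X I j C = 0 := by unfold fH; simp [hd]
    rw [hin, hun, hh]
    by_cases hx : ∃ i0 ∈ I j, eA e (X i0) C = 3
    · obtain ⟨i0, hi0, hx0⟩ := hx
      have hle : eA e (X i0) C ≤ ∑ i ∈ I j, eA e (X i) C :=
        Finset.single_le_sum (f := fun i => eA e (X i) C) (fun _ _ => Nat.zero_le _) hi0
      have hs : ∑ i ∈ I j, eA e (X i) C = 3 := by omega
      have hz : eA e (Z j) C = 0 := by omega
      have hnb : C ∉ beta e Z X I j := by
        rw [mem_beta]
        rintro ⟨_, _, _, h5⟩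
        exact h5 i0 hi0 hx0
      have h1 : fB2 e Z X I j C = 0 := by unfold fB2; simp [hnb]
      have h3 : fB3 e Z X I j C = 0 := by unfold fB3; simp [hnb]
      have ha : fAl e Z j C = 0 := by unfold fAl; rw [if_neg]; rintro ⟨_, h6⟩; omega
      have hw : fW e Z X I j C = 0 := by unfold fW; rw [if_neg]; rintro ⟨_, h6⟩; omega
      rw [h1, h3, ha, hw, hz]
      simp
    · have hx' : ∀ i ∈ I j, eA e (X i) C ≠ 3 := fun i hi h3 => hx ⟨i, hi, h3⟩
      by_cases hT3 : eA e (Aj Z X I j) C = 3
      · have hw : fW e Z X I j C = 0 := by unfold fW; rw [if_neg]; rintro ⟨_, h6⟩; omega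
        rw [hw]
        by_cases hz3 : eA e (Z j) C = 3
        · have hnb : C ∉ beta e Z X I j := by
            rw [mem_beta]
            rintro ⟨_, _, h5, _⟩
            exact h5 hz3
          have h1 : fB2 e Z X I j C = 0 := by unfold fB2; simp [hnb]
          have h3 : fB3 e Z X I j C = 0 := by unfold fB3; simp [hnb]
          have ha : fAl e Z j C = 1 := by unfold fAl; simp [hd, hz3]
          rw [h1, h3, ha]
          omega
        · have hb : C ∈ beta e Z X I j := by
            rw [mem_beta]; exact ⟨hd, hT3, hz3, hx'⟩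
          have ha : fAl e Z j C = 0 := by unfold fAl; simp [hz3]
          have h1 : fB2 e Z X I j C = if eA e (Z j) C = 1 then 1 else 0 := by
            unfold fB2; simp [hb]
          have h3 : fB3 e Z X I j C = if eA e (Z j) C = 2 then 1 else 0 := by
            unfold fB3; simp [hb]
          rw [ha, h1, h3]
          split_ifs <;> omega
      · have hnb : C ∉ beta e Z X I j := by
          rw [mem_beta]
          rintro ⟨_, h5, _, _⟩
          exact hT3 h5
        have h1 : fB2 e Z X I j C = 0 := by unfold fB2; simp [hnb]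
        have h3 : fB3 e Z X I j C = 0 := by unfold fB3; simp [hnb]
        have ha : fAl e Z j C = 0 := by unfold fAl; rw [if_neg]; rintro ⟨_, h6⟩; omega
        have hw : fW e Z X I j C = eA e (Z j) C := by
          unfold fW; rw [if_pos]; exact ⟨hd, by omega⟩
        rw [h1, h3, ha, hw]
        omega
  · have hnb : C ∉ beta e Z X I j := by
      rw [mem_beta]
      rintro ⟨h5, _⟩
      exact hd h5
    have h1 : fB2 e Z X I j C = 0 := by unfold fB2; simp [hnb]
    have h3 : fB3 e Z X I j C = 0 := by unfold fB3; simp [hnb]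
    have ha : fAl e Z j C = 0 := by unfold fAl; simp [hd]
    have hw : fW e Z X I j C = 0 := by unfold fW; simp [hd]
    rw [h1, h3, ha, hw]
    by_cases hx : ∃ i0 ∈ I j, eA e (X i0) C ≠ 0
    · have hh : fH e Z X I j C = eA e (Z j) C := by unfold fH; rw [if_pos ⟨hd, hx⟩]
      obtain ⟨i0, hi0, hx0⟩ := hx
      have hin : fIn e Z X I j C = 0 := by
        unfold fIn isIn; rw [if_neg]; rintro ⟨_, h5, _⟩; exact hx0 (h5 i0 hi0)
      have hun : fUn e Z X I j C = 0 := by
        unfold fUn isUn; rw [if_neg]; rintro ⟨_, h5, _⟩; exact hx0 (h5 i0 hi0)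
      rw [hin, hun, hh]
      omega
    · have hh : fH e Z X I j C = 0 := by unfold fH; rw [if_neg (fun h5 => hx h5.2)]
      have hx' : ∀ i ∈ I j, eA e (X i) C = 0 := by
        intro i hi
        by_contra h5
        exact hx ⟨i, hi, h5⟩
      have hin : fIn e Z X I j C = if eA e (Z j) C = dC e C then 1 else 0 := by
        unfold fIn isIn; simp only [hd, ne_eq, not_false_eq_true, true_and]
        by_cases h6 : eA e (Z j) C = dC e C
        · rw [if_pos ⟨hx', h6⟩, if_pos h6]
        · rw [if_neg (fun h7 => h6 h7.2), if_neg h6]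
      have hun : fUn e Z X I j C =
          if eA e (Z j) C ≠ 0 ∧ eA e (Z j) C ≠ dC e C then 1 else 0 := by
        unfold fUn isUn
        by_cases h6 : eA e (Z j) C ≠ 0 ∧ eA e (Z j) C ≠ dC e C
        · rw [if_pos ⟨hd, hx', h6.1, h6.2⟩, if_pos h6]
        · rw [if_neg (fun h7 => h6 ⟨h7.2.2.1, h7.2.2.2⟩), if_neg h6]
      rw [hin, hun, hh]
      by_cases h6 : eA e (Z j) C = dC e C
      · rw [if_pos h6, if_neg (fun h7 => h7.2 h6)]; omega
      · by_cases h7 : eA e (Z j) C = 0
        · rw [if_neg h6, if_neg (fun h8 => h8.1 h7)]; omega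
        · rw [if_neg h6, if_pos ⟨h7, h6⟩]; omega

/-- pointwise: edges of a 3-component at `Z j` -/
lemma pw2' {e : ι → β → ℕ} {full dem : ι → ℕ} {Z : J → Finset ι} {X : H → Finset ι}
    {I : J → Finset H} {gam : J → ℕ} (hB : DBase e full dem) (h : IsCS e dem Z X I gam) (j : J)
    (C : β) :
    (if dC e C = 3 then eA e (Z j) C else 0) =
      3 * fAl e Z j C + 2 * fB3 e Z X I j C + fB2 e Z X I j C + fW e Z X I j C := by
  by_cases hd : dC e C = 3
  · have h1 := pw2 hB h j C
    have hin : fIn e Z X I j C = 0 := by unfold fIn isIn; simp [hd]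
    have hun : fUn e Z X I j C = 0 := by unfold fUn isUn; simp [hd]
    have hh : fH e Z X I j C = 0 := by unfold fH; simp [hd]
    rw [hin, hun, hh] at h1
    rw [if_pos hd]
    omega
  · have hnb : C ∉ beta e Z X I j := by
      rw [mem_beta]
      rintro ⟨h5, _⟩
      exact hd h5
    have h1 : fB2 e Z X I j C = 0 := by unfold fB2; simp [hnb]
    have h3 : fB3 e Z X I j C = 0 := by unfold fB3; simp [hnb]
    have ha : fAl e Z j C = 0 := by unfold fAl; simp [hd]
    have hw : fW e Z X I j C = 0 := by unfold fW; simp [hd]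
    rw [h1, h3, ha, hw, if_neg hd]

lemma pw3 {e : ι → β → ℕ} {dem : ι → ℕ} {Z : J → Finset ι} {X : H → Finset ι}
    {I : J → Finset H} {gam : J → ℕ} (h : IsCS e dem Z X I gam) (j : J)
    (C : β) :
    (if C ∈ beta e Z X I j then ∑ i ∈ I j, eA e (X i) C else 0) =
      3 * fB1 e Z X I j C + 2 * fB2 e Z X I j C + fB3 e Z X I j C := by
  have hT := eA_Aj h j C
  by_cases hb : C ∈ beta e Z X I j
  · obtain ⟨h1, h2, h3, h4⟩ := mem_beta.mp hb
    rw [if_pos hb]
    have e1 : fB1 e Z X I j C = if eA e (Z j) C = 0 then 1 else 0 := by unfold fB1; simp [hb]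
    have e2 : fB2 e Z X I j C = if eA e (Z j) C = 1 then 1 else 0 := by unfold fB2; simp [hb]
    have e3 : fB3 e Z X I j C = if eA e (Z j) C = 2 then 1 else 0 := by unfold fB3; simp [hb]
    rw [e1, e2, e3]
    split_ifs <;> omega
  · rw [if_neg hb]
    unfold fB1 fB2 fB3
    simp [hb]

lemma sum_xb {e : ι → β → ℕ} {dem : ι → ℕ} {Z : J → Finset ι} {X : H → Finset ι}
    {I : J → Finset H} {gam : J → ℕ} (h : IsCS e dem Z X I gam) (j : J) :
    ∑ i ∈ I j, xb e Z X I i j =
      3 * ∑ C, fB1 e Z X I j C + 2 * ∑ C, fB2 e Z X I j C + ∑ C, fB3 e Z X I j C := by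
  have h1 : ∑ i ∈ I j, xb e Z X I i j =
      ∑ C, (if C ∈ beta e Z X I j then ∑ i ∈ I j, eA e (X i) C else 0) := by
    unfold xb
    rw [Finset.sum_comm, ← Finset.sum_filter]
    congr 1
    ext C
    simp
  rw [h1, Finset.sum_congr rfl (fun C _ => pw3 h j C), Finset.sum_add_distrib,
    Finset.sum_add_distrib, ← Finset.mul_sum, ← Finset.mul_sum]

lemma sum_fH {e : ι → β → ℕ} {dem : ι → ℕ} {Z : J → Finset ι} {X : H → Finset ι}
    {I : J → Finset H} {gam : J → ℕ} (h : IsCS e dem Z X I gam) (j : J) :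
    ∑ C, fH e Z X I j C = ∑ i ∈ I j, eK e Z X i j := by
  have h1 : ∑ i ∈ I j, eK e Z X i j =
      ∑ C, ∑ i ∈ I j, (if dC e C ≠ 3 ∧ eA e (X i) C ≠ 0 then eA e (Z j) C else 0) := by
    rw [Finset.sum_comm]
    apply Finset.sum_congr rfl
    intro i _
    unfold eK
    rw [Finset.sum_filter]
  rw [h1]
  apply Finset.sum_congr rfl
  intro C _
  unfold fH
  by_cases hd : dC e C = 3
  · simp [hd]
  · by_cases hx : ∃ i0 ∈ I j, eA e (X i0) C ≠ 0
    · rw [if_pos ⟨hd, hx⟩]
      obtain ⟨i0, hi0, hx0⟩ := hx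
      have h2 : ∑ i ∈ I j, (if dC e C ≠ 3 ∧ eA e (X i) C ≠ 0 then eA e (Z j) C else 0) =
          (if dC e C ≠ 3 ∧ eA e (X i0) C ≠ 0 then eA e (Z j) C else 0) :=
        five_hub h hd hi0 hx0 (fun t => if dC e C ≠ 3 ∧ t ≠ 0 then eA e (Z j) C else 0)
        (by simp)
      rw [h2, if_pos ⟨hd, hx0⟩]
    · rw [if_neg (fun h5 => hx h5.2)]
      symm
      apply Finset.sum_eq_zero
      intro i hi
      rw [if_neg]
      rintro ⟨_, h5⟩
      exact hx ⟨i, hi, h5⟩


/-- the 5+ part of the mass of a non-special cluster -/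
lemma mass5 {e : ι → β → ℕ} {full dem : ι → ℕ} {Z : J → Finset ι} {X : H → Finset ι}
    {I : J → Finset H} {gam : J → ℕ} (hB : DBase e full dem) (j : J)
    (hS : ¬ Sty e full dem Z X I gam j) :
    ∑ C ∈ Finset.univ.filter (fun C => dC e C ≠ 3 ∧ ∀ i ∈ I j, eA e (X i) C = 0),
      allow e full dem Z X I gam j C =
    9 * ∑ C, fIn e Z X I j C + ∑ C, min 9 (2 + eA e (Z j) C) * fUn e Z X I j C := by
  rw [Finset.sum_filter, Finset.mul_sum, ← Finset.sum_add_distrib]
  apply Finset.sum_congr rfl
  intro C _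
  have hge := hB.ge3 C
  unfold allow
  rw [if_neg hS]
  by_cases h1 : dC e C ≠ 3 ∧ ∀ i ∈ I j, eA e (X i) C = 0
  · rw [if_pos h1]
    by_cases h6 : eA e (Z j) C = dC e C
    · have hin : fIn e Z X I j C = 1 := by unfold fIn isIn; rw [if_pos ⟨h1.1, h1.2, h6⟩]
      have hun : fUn e Z X I j C = 0 := by
        unfold fUn isUn; rw [if_neg (fun h7 => h7.2.2.2 h6)]
      rw [hin, hun, if_neg (by omega), if_pos h6]
      simp
    · have hin : fIn e Z X I j C = 0 := by unfold fIn isIn; rw [if_neg (fun h7 => h6 h7.2.2)]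
      rw [hin]
      by_cases h7 : eA e (Z j) C = 0
      · have hun : fUn e Z X I j C = 0 := by
          unfold fUn isUn; rw [if_neg (fun h8 => h8.2.2.1 h7)]
        rw [hun, if_pos h7]
        simp
      · have hun : fUn e Z X I j C = 1 := by
          unfold fUn isUn; rw [if_pos ⟨h1.1, h1.2, h7, h6⟩]
        rw [hun, if_neg h7, if_neg h6]
        omega
  · have hin : fIn e Z X I j C = 0 := by
      unfold fIn isIn; rw [if_neg (fun h7 => h1 ⟨h7.1, h7.2.1⟩)]
    have hun : fUn e Z X I j C = 0 := by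
      unfold fUn isUn; rw [if_neg (fun h7 => h1 ⟨h7.1, h7.2.1⟩)]
    rw [if_neg h1, hin, hun]
    simp

lemma outA_eq (e : ι → β → ℕ) (A : Finset ι) : outA e A = ∑ C, eA e A C := by
  unfold outA eA
  rw [Finset.sum_comm]

lemma sum3 {e : ι → β → ℕ} {full dem : ι → ℕ} {Z : J → Finset ι} {X : H → Finset ι}
    {I : J → Finset H} {gam : J → ℕ} (hB : DBase e full dem) (h : IsCS e dem Z X I gam) (j : J) :
    ∑ C ∈ Finset.univ.filter (fun C => dC e C = 3), eA e (Z j) C =
      3 * ∑ C, fAl e Z j C + 2 * ∑ C, fB3 e Z X I j C + ∑ C, fB2 e Z X I j C +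
        ∑ C, fW e Z X I j C := by
  rw [Finset.sum_filter, Finset.sum_congr rfl (fun C _ => pw2' hB h j C)]
  rw [Finset.sum_add_distrib, Finset.sum_add_distrib, Finset.sum_add_distrib, ← Finset.mul_sum,
    ← Finset.mul_sum]

lemma sumU {e : ι → β → ℕ} {full dem : ι → ℕ} {Z : J → Finset ι} {X : H → Finset ι}
    {I : J → Finset H} {gam : J → ℕ} (hB : DBase e full dem) (h : IsCS e dem Z X I gam) (j : J) :
    ∑ C, fIn e Z X I j C + ∑ C, fUn e Z X I j C + 2 * ∑ C, fAl e Z j C + ∑ C, fB3 e Z X I j C +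
        ∑ C, fW e Z X I j C + (I j).card =
      demA dem (Z j) + gam j + ∑ C, fB1 e Z X I j C := by
  have h1 := rawU h j
  have h2 : ∑ C, (min (uC e C) (eA e (Z j) C + ∑ i ∈ I j, eA e (X i) C) + fB1 e Z X I j C) =
      ∑ C, (∑ i ∈ I j, min (uC e C) (eA e (X i) C) +
        (fIn e Z X I j C + fUn e Z X I j C + 2 * fAl e Z j C + fB3 e Z X I j C +
          fW e Z X I j C)) := Finset.sum_congr rfl (fun C _ => pw1 hB h j C)
  rw [Finset.sum_add_distrib, Finset.sum_add_distrib, Finset.sum_add_distrib,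
    Finset.sum_add_distrib, Finset.sum_add_distrib, Finset.sum_add_distrib,
    ← Finset.mul_sum] at h2
  omega

lemma sumE {e : ι → β → ℕ} {full dem : ι → ℕ} {Z : J → Finset ι} {X : H → Finset ι}
    {I : J → Finset H} {gam : J → ℕ} (hB : DBase e full dem) (h : IsCS e dem Z X I gam) (j : J) :
    outA e (Z j) = ∑ C, dC e C * fIn e Z X I j C + ∑ C, eA e (Z j) C * fUn e Z X I j C +
      ∑ i ∈ I j, eK e Z X i j +
      3 * ∑ C, fAl e Z j C + 2 * ∑ C, fB3 e Z X I j C + ∑ C, fB2 e Z X I j C +
        ∑ C, fW e Z X I j C := by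
  rw [outA_eq, Finset.sum_congr rfl (fun C _ => pw2 hB h j C), ← sum_fH h j]
  rw [Finset.sum_add_distrib, Finset.sum_add_distrib, Finset.sum_add_distrib,
    Finset.sum_add_distrib, Finset.sum_add_distrib, Finset.sum_add_distrib, ← Finset.mul_sum,
    ← Finset.mul_sum]

lemma ge5 {e : ι → β → ℕ} {full dem : ι → ℕ} (hB : DBase e full dem) {C : β} (h : dC e C ≠ 3) :
    5 ≤ dC e C := by
  have h1 := hB.ge3 C
  obtain ⟨k, hk⟩ := hB.odd C
  omega

lemma sumIn {e : ι → β → ℕ} {full dem : ι → ℕ} {Z : J → Finset ι} {X : H → Finset ι}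
    {I : J → Finset H} (hB : DBase e full dem) (j : J) :
    ∑ C, dC e C * fIn e Z X I j C = 5 * ∑ C, fIn e Z X I j C +
      ∑ C, (dC e C - 5) * fIn e Z X I j C := by
  rw [Finset.mul_sum, ← Finset.sum_add_distrib]
  apply Finset.sum_congr rfl
  intro C _
  by_cases h : isIn e Z X I j C
  · have h1 : fIn e Z X I j C = 1 := by unfold fIn; rw [if_pos h]
    have h2 := ge5 hB h.1
    rw [h1]; omega
  · have h1 : fIn e Z X I j C = 0 := by unfold fIn; rw [if_neg h]
    rw [h1]; simp

lemma In_zero {e : ι → β → ℕ} {full dem : ι → ℕ} {Z : J → Finset ι} {X : H → Finset ι}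
    {I : J → Finset H} (hB : DBase e full dem) (j : J)
    (h0 : ∑ C, (dC e C - 5) * fIn e Z X I j C = 0) (C : β) (h : isIn e Z X I j C) :
    dC e C = 5 := by
  have h1 := (Finset.sum_eq_zero_iff.mp h0) C (Finset.mem_univ C)
  have h2 : fIn e Z X I j C = 1 := by unfold fIn; rw [if_pos h]
  have h3 := ge5 hB h.1
  rw [h2] at h1
  omega

lemma In_ge {e : ι → β → ℕ} {full dem : ι → ℕ} {Z : J → Finset ι} {X : H → Finset ι}
    {I : J → Finset H} (hB : DBase e full dem) (j : J) :
    ∑ C, (dC e C - 5) * fIn e Z X I j C = 0 ∨ 2 ≤ ∑ C, (dC e C - 5) * fIn e Z X I j C := by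
  by_cases h0 : ∑ C, (dC e C - 5) * fIn e Z X I j C = 0
  · exact Or.inl h0
  · right
    have h1 : ∃ C, (dC e C - 5) * fIn e Z X I j C ≠ 0 := by
      by_contra hc
      push Not at hc
      exact h0 (Finset.sum_eq_zero (fun C _ => hc C))
    obtain ⟨C, hC⟩ := h1
    have h2 : (dC e C - 5) * fIn e Z X I j C ≤ ∑ C, (dC e C - 5) * fIn e Z X I j C :=
      Finset.single_le_sum (f := fun C => (dC e C - 5) * fIn e Z X I j C)
        (fun _ _ => Nat.zero_le _) (Finset.mem_univ C)
    have h3 : isIn e Z X I j C := by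
      by_contra h4
      apply hC
      unfold fIn
      rw [if_neg h4]; simp
    have h4 : fIn e Z X I j C = 1 := by unfold fIn; rw [if_pos h3]
    obtain ⟨k, hk⟩ := hB.odd C
    rw [h4] at hC h2
    omega

lemma card_In (e : ι → β → ℕ) (Z : J → Finset ι) (X : H → Finset ι)
    (I : J → Finset H) (j : J) :
    (Finset.univ.filter (fun C => isIn e Z X I j C)).card = ∑ C, fIn e Z X I j C := by
  rw [Finset.card_filter]
  rfl

lemma beta_card {e : ι → β → ℕ} {dem : ι → ℕ} {Z : J → Finset ι} {X : H → Finset ι}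
    {I : J → Finset H} {gam : J → ℕ} (h : IsCS e dem Z X I gam) (j : J) :
    (beta e Z X I j).card = ∑ C, fB1 e Z X I j C + ∑ C, fB2 e Z X I j C + ∑ C, fB3 e Z X I j C := by
  rw [← Finset.sum_add_distrib, ← Finset.sum_add_distrib, Finset.card_eq_sum_ones,
    ← Finset.sum_filter_add_sum_filter_not Finset.univ (fun C => C ∈ beta e Z X I j)
      (fun C => fB1 e Z X I j C + fB2 e Z X I j C + fB3 e Z X I j C)]
  have h2 : ∑ C ∈ Finset.univ.filter (fun C => ¬ C ∈ beta e Z X I j),
      (fB1 e Z X I j C + fB2 e Z X I j C + fB3 e Z X I j C) = 0 := by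
    apply Finset.sum_eq_zero
    intro C hC
    have hC' := (Finset.mem_filter.mp hC).2
    unfold fB1 fB2 fB3
    simp [hC']
  rw [h2, Nat.add_zero]
  have h3 : Finset.univ.filter (fun C => C ∈ beta e Z X I j) = beta e Z X I j := by
    ext C; simp
  rw [h3]
  apply Finset.sum_congr rfl
  intro C hb
  obtain ⟨h1, h2, h3, h4⟩ := mem_beta.mp hb
  have hT := eA_Aj h j C
  have e1 : fB1 e Z X I j C = if eA e (Z j) C = 0 then 1 else 0 := by unfold fB1; simp [hb]
  have e2 : fB2 e Z X I j C = if eA e (Z j) C = 1 then 1 else 0 := by unfold fB2; simp [hb]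
  have e3 : fB3 e Z X I j C = if eA e (Z j) C = 2 then 1 else 0 := by unfold fB3; simp [hb]
  rw [e1, e2, e3]
  split_ifs <;> omega

lemma ov2' {e : ι → β → ℕ} {dem : ι → ℕ} {Z : J → Finset ι} {X : H → Finset ι}
    {I : J → Finset H} {gam : J → ℕ} (h : IsCS e dem Z X I gam) (j : J) (i : H) (hi : i ∈ I j) :
    2 ≤ eK e Z X i j + (∑ C, fB1 e Z X I j C + ∑ C, fB2 e Z X I j C + ∑ C, fB3 e Z X I j C) := by
  have h1 := h.ov2 j i hi
  have h2 : (Finset.univ.filter (fun C => dC e C ≠ 3 ∧ eA e (X i) C ≠ 0 ∧ eA e (Z j) C ≠ 0)).card ≤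
      eK e Z X i j := by
    unfold eK
    rw [Finset.card_eq_sum_ones]
    calc ∑ C ∈ Finset.univ.filter (fun C => dC e C ≠ 3 ∧ eA e (X i) C ≠ 0 ∧ eA e (Z j) C ≠ 0), 1
        ≤ ∑ C ∈ Finset.univ.filter (fun C => dC e C ≠ 3 ∧ eA e (X i) C ≠ 0 ∧ eA e (Z j) C ≠ 0),
          eA e (Z j) C := by
          apply Finset.sum_le_sum
          intro C hC
          have := (Finset.mem_filter.mp hC).2.2.2
          omega
      _ ≤ ∑ C ∈ Finset.univ.filter (fun C => dC e C ≠ 3 ∧ eA e (X i) C ≠ 0), eA e (Z j) C := by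
          apply Finset.sum_le_sum_of_subset
          intro C hC
          simp only [Finset.mem_filter, Finset.mem_univ, true_and] at hC ⊢
          exact ⟨hC.1, hC.2.1⟩
  have h3 : (Finset.univ.filter (fun C => dC e C = 3 ∧ eA e (Aj Z X I j) C = 3 ∧ eA e (X i) C ≠ 0 ∧
      eA e (X i) C ≠ 3)).card ≤ (beta e Z X I j).card := by
    apply Finset.card_le_card
    intro C hC
    simp only [Finset.mem_filter, Finset.mem_univ, true_and] at hC
    obtain ⟨c1, c2, c3, c4⟩ := hC
    rw [mem_beta]
    have hT := eA_Aj h j C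
    have hle : eA e (X i) C ≤ ∑ i ∈ I j, eA e (X i) C :=
      Finset.single_le_sum (f := fun i => eA e (X i) C) (fun _ _ => Nat.zero_le _) hi
    refine ⟨c1, c2, by omega, ?_⟩
    intro i' hi' h5
    have hne : i ≠ i' := by
      rintro rfl
      exact c4 h5
    have h6 : ∑ k ∈ ({i, i'} : Finset H), eA e (X k) C ≤ ∑ k ∈ I j, eA e (X k) C := by
      apply Finset.sum_le_sum_of_subset
      intro k hk
      simp only [Finset.mem_insert, Finset.mem_singleton] at hk
      rcases hk with rfl | rfl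
      · exact hi
      · exact hi'
    rw [Finset.sum_pair hne] at h6
    omega
  rw [beta_card h j] at h3
  omega

lemma b1_hubs {e : ι → β → ℕ} {dem : ι → ℕ} {Z : J → Finset ι} {X : H → Finset ι}
    {I : J → Finset H} {gam : J → ℕ} (h : IsCS e dem Z X I gam) (j : J)
    (hb : ∑ C, fB1 e Z X I j C ≠ 0) : 3 ≤ (I j).card := by
  have h1 : ∃ C, fB1 e Z X I j C ≠ 0 := by
    by_contra hc
    push Not at hc
    exact hb (Finset.sum_eq_zero (fun C _ => hc C))
  obtain ⟨C, hC⟩ := h1
  have h2 : C ∈ beta e Z X I j ∧ eA e (Z j) C = 0 := by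
    by_contra h4
    apply hC
    unfold fB1
    rw [if_neg h4]
  obtain ⟨c1, c2, c3, c4⟩ := mem_beta.mp h2.1
  have hT := eA_Aj h j C
  have hsum : ∑ i ∈ I j, eA e (X i) C = 3 := by omega
  have hle1 : ∀ i ∈ I j, eA e (X i) C ≤ 1 := by
    intro i hi
    by_contra h5
    have hle : eA e (X i) C ≤ ∑ i ∈ I j, eA e (X i) C :=
      Finset.single_le_sum (f := fun i => eA e (X i) C) (fun _ _ => Nat.zero_le _) hi
    have h6 := c4 i hi
    have h7 : eA e (X i) C = 2 := by omega
    have h8 : ∑ k ∈ (I j).erase i, eA e (X k) C = 1 := by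
      have : eA e (X i) C + ∑ k ∈ (I j).erase i, eA e (X k) C = ∑ k ∈ I j, eA e (X k) C :=
        Finset.add_sum_erase (I j) (fun k => eA e (X k) C) hi
      omega
    have h9 : ∃ k ∈ (I j).erase i, eA e (X k) C ≠ 0 := by
      by_contra hc
      push Not at hc
      rw [Finset.sum_eq_zero hc] at h8
      omega
    obtain ⟨k, hk, hk0⟩ := h9
    have h10 : eA e (X k) C ≤ ∑ k ∈ (I j).erase i, eA e (X k) C :=
      Finset.single_le_sum (f := fun i => eA e (X i) C) (fun _ _ => Nat.zero_le _) hk
    have h11 : eA e (X k) C = 1 := by omega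
    have hne : i ≠ k := by
      rintro rfl
      exact (Finset.notMem_erase _ _) hk
    exact h.excl3 i k hne C c1 ⟨h7, h11⟩
  calc 3 = ∑ i ∈ I j, eA e (X i) C := hsum.symm
    _ ≤ ∑ i ∈ I j, 1 := Finset.sum_le_sum hle1
    _ = (I j).card := by simp

lemma beta_hubs {e : ι → β → ℕ} {dem : ι → ℕ} {Z : J → Finset ι} {X : H → Finset ι}
    {I : J → Finset H} {gam : J → ℕ} (h : IsCS e dem Z X I gam) (j : J)
    (hI : (I j).card = 0) : ∑ C, fB1 e Z X I j C = 0 ∧ ∑ C, fB2 e Z X I j C = 0 ∧
      ∑ C, fB3 e Z X I j C = 0 := by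
  have hI' : I j = ∅ := Finset.card_eq_zero.mp hI
  have hb : beta e Z X I j = ∅ := by
    by_contra hne
    obtain ⟨C, hC⟩ := Finset.nonempty_iff_ne_empty.mpr hne
    obtain ⟨c1, c2, c3, c4⟩ := mem_beta.mp hC
    have hT := eA_Aj h j C
    rw [hI'] at hT
    simp at hT
    omega
  have h1 := beta_card h j
  rw [hb] at h1
  simp only [Finset.card_empty] at h1
  omega


/-- the arithmetic of case (A): all vertices of `Z` of kind (5,1) -/
lemma arithA (n ui un nI ca b1 b2 b3 w In Szn Se out γ mU svI : ℕ)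
    (hU : ui + un + 2 * ca + b3 + w + nI = n + γ + b1)
    (hE : out = 5 * ui + In + Szn + Se + 3 * ca + 2 * b3 + b2 + w)
    (hout : out ≤ 5 * n) (hγ : (γ = 1 ∧ nI = 0) ∨ γ = 2)
    (hm1 : mU ≤ 2 * un + Szn) (hm2 : mU ≤ 9 * un)
    (hz1 : un ≤ Szn) (hz0 : un = 0 → Szn = 0)
    (hIn : In = 0 ∨ 2 ≤ In)
    (hb1 : b1 ≠ 0 → 3 ≤ nI) (hb0 : nI = 0 → b1 = 0 ∧ b2 = 0 ∧ b3 = 0 ∧ Se = 0)
    (hov : nI ≠ 0 → 2 ≤ Se + (b1 + b2 + b3))
    (hsv : nI = 1 → 8 ≤ Se → 2 ≤ svI)
    (hb3 : n = 1 → b3 = 0)
    (hcut : In = 0 → ca = 1 → ui + 1 = n → 5 * n ≤ out + 1 → False)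
    (hT : In = 0 → ca = 1 → ui + 2 = n → 5 * n ≤ out + 1 → False)
    (hC : In = 0 → 1 ≤ ui → ui + 1 = n → 5 * n ≤ out + 1 → False)
    (hS : n = 1 → γ = 2 → b1 + b2 + b3 = 0 → 4 ≤ out → False) :
    9 * ui + mU + 3 * (3 * ca + 2 * b3 + b2 + w) + (2 * nI + Se) ≤
      9 * n + (2 * (3 * b1 + 2 * b2 + b3) + svI) := by
  obtain ⟨k, hk⟩ : ∃ k, n = ui + k := by
    clear hb1 hb0 hov hsv hb3 hcut hT hC hS hz0
    exact ⟨n - ui, by omega⟩
  obtain ⟨o, ho⟩ : ∃ o, out + o = 5 * n := by
    clear hb1 hb0 hov hsv hb3 hcut hT hC hS hz0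
    exact ⟨5 * n - out, by omega⟩
  rcases hγ with ⟨hγ, hnI⟩ | hγ
  · -- γ = 1
    obtain ⟨q1, q2, q3, q4⟩ := hb0 hnI
    clear hb1 hb0 hov hsv hb3 hcut hT hC hS
    by_cases hu0 : un = 0
    · have := hz0 hu0
      omega
    · clear hz0
      omega
  · -- γ = 2
    by_cases hb : b1 = 0
    · by_cases c4 : 4 ≤ ca
      · clear hb1 hb0 hov hsv hb3 hcut hT hC hS hz0
        omega
      · have hca : ca = 0 ∨ ca = 1 ∨ ca = 2 ∨ ca = 3 := by
          clear hb1 hb0 hov hsv hb3 hcut hT hC hS hz0
          omega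
        rcases hca with hca | hca | hca | hca
        · -- ca = 0
          subst hca hb
          by_cases k2 : 2 ≤ k
          · clear hb1 hb0 hov hsv hb3 hcut hT hC hS hz0
            omega
          · by_cases k0 : k = 0
            · exfalso
              subst k0
              by_cases hI0 : nI = 0
              · obtain ⟨q1, q2, q3, q4⟩ := hb0 hI0
                clear hb1 hb0 hov hsv hb3 hcut hT hC hS hz0
                omega
              · have := hov hI0
                clear hb1 hb0 hov hsv hb3 hcut hT hC hS hz0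
                omega
            · have k1 : k = 1 := by
                clear hb1 hb0 hov hsv hb3 hcut hT hC hS hz0
                omega
              subst k1
              by_cases hgood : 2 ≤ o + In + 2 * b2
              · clear hb1 hb0 hov hsv hb3 hcut hT hC hS hz0
                omega
              · exfalso
                have f1 : In = 0 := by
                  clear hb1 hb0 hov hsv hb3 hcut hT hC hS hz0
                  omega
                have f2 : 5 * n ≤ out + 1 := by
                  clear hb1 hb0 hov hsv hb3 hcut hT hC hS hz0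
                  omega
                have f4 : b2 = 0 := by
                  clear hb1 hb0 hov hsv hb3 hcut hT hC hS hz0
                  omega
                by_cases hu : 1 ≤ ui
                · have f3 : ui + 1 = n := by
                    clear hb1 hb0 hov hsv hb3 hcut hT hC hS hz0
                    omega
                  exact hC f1 hu f3 f2
                · have hn : n = 1 := by
                    clear hb1 hb0 hov hsv hb3 hcut hT hC hS hz0
                    omega
                  have f5 := hb3 hn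
                  have f6 : 0 + b2 + b3 = 0 := by
                    rw [f4, f5]
                  have f7 : 4 ≤ out := by
                    clear hb1 hb0 hov hsv hb3 hcut hT hC hS hz0
                    omega
                  exact hS hn hγ f6 f7
        · -- ca = 1
          subst hca hb
          by_cases k3 : 3 ≤ k
          · clear hb1 hb0 hov hsv hb3 hcut hT hC hS hz0
            omega
          · have hk' : k = 0 ∨ k = 1 ∨ k = 2 := by
              clear hb1 hb0 hov hsv hb3 hcut hT hC hS hz0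
              omega
            rcases hk' with hk' | hk' | hk'
            · subst hk'; exfalso
              clear hb1 hb0 hov hsv hb3 hcut hT hC hS hz0
              omega
            · subst hk'
              by_cases hgood : In = 0 ∧ o ≤ 1
              · exfalso
                have f3 : ui + 1 = n := by
                  clear hb1 hb0 hov hsv hb3 hcut hT hC hS hz0
                  omega
                have f2 : 5 * n ≤ out + 1 := by
                  clear hb1 hb0 hov hsv hb3 hcut hT hC hS hz0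
                  omega
                exact hcut hgood.1 rfl f3 f2
              · by_cases hI0 : nI = 0
                · obtain ⟨q1, q2, q3, q4⟩ := hb0 hI0
                  clear hb1 hb0 hov hsv hb3 hcut hT hC hS hz0
                  omega
                · have := hov hI0
                  clear hb1 hb0 hov hsv hb3 hcut hT hC hS hz0
                  omega
            · subst hk'
              by_cases hgood : 2 ≤ o + In + 2 * b2
              · clear hb1 hb0 hov hsv hb3 hcut hT hC hS hz0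
                omega
              · exfalso
                have f1 : In = 0 := by
                  clear hb1 hb0 hov hsv hb3 hcut hT hC hS hz0
                  omega
                have f2 : 5 * n ≤ out + 1 := by
                  clear hb1 hb0 hov hsv hb3 hcut hT hC hS hz0
                  omega
                have f3 : ui + 2 = n := by
                  clear hb1 hb0 hov hsv hb3 hcut hT hC hS hz0
                  omega
                exact hT f1 rfl f3 f2
        · -- ca = 2
          subst hca hb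
          by_cases hI0 : nI = 0
          · obtain ⟨q1, q2, q3, q4⟩ := hb0 hI0
            by_cases hu0 : un = 0
            · have := hz0 hu0
              clear hb1 hb0 hov hsv hb3 hcut hT hC hS hz0
              omega
            · clear hb1 hb0 hov hsv hb3 hcut hT hC hS hz0
              omega
          · by_cases hI1 : nI = 1
            · by_cases h8 : 8 ≤ Se
              · have := hsv hI1 h8
                clear hb1 hb0 hov hsv hb3 hcut hT hC hS hz0
                omega
              · by_cases hu0 : un = 0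
                · have := hz0 hu0
                  clear hb1 hb0 hov hsv hb3 hcut hT hC hS hz0
                  omega
                · clear hb1 hb0 hov hsv hb3 hcut hT hC hS hz0
                  omega
            · clear hb1 hb0 hov hsv hb3 hcut hT hC hS hz0
              omega
        · -- ca = 3
          subst hca hb
          by_cases hI0 : nI = 0
          · obtain ⟨q1, q2, q3, q4⟩ := hb0 hI0
            by_cases hu0 : un = 0
            · have := hz0 hu0
              clear hb1 hb0 hov hsv hb3 hcut hT hC hS hz0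
              omega
            · clear hb1 hb0 hov hsv hb3 hcut hT hC hS hz0
              omega
          · clear hb1 hb0 hov hsv hb3 hcut hT hC hS hz0
            omega
    · have := hb1 hb
      clear hb1 hb0 hov hsv hb3 hcut hT hC hS hz0
      omega


lemma arithB (D ui un nI ca b1 b2 b3 w In Szn Se out γ mU svI : ℕ)
    (hU : ui + un + 2 * ca + b3 + w + nI = D + γ + b1)
    (hE : out = 5 * ui + In + Szn + Se + 3 * ca + 2 * b3 + b2 + w)
    (hout : 2 * out + 14 ≤ 10 * D) (hγ : (γ = 1 ∧ nI = 0) ∨ γ = 2)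
    (hm1 : mU ≤ 2 * un + Szn) :
    9 * ui + mU + 3 * (3 * ca + 2 * b3 + b2 + w) + (2 * nI + Se) ≤
      9 * D + (2 * (3 * b1 + 2 * b2 + b3) + svI) := by
  have hγ2 : γ ≤ 2 := by omega
  clear hγ
  omega

lemma exists_of_fAl {e : ι → β → ℕ} {Z : J → Finset ι} {j : J}
    (h : ∑ C, fAl e Z j C ≠ 0) : ∃ C, dC e C = 3 ∧ eA e (Z j) C = 3 := by
  have h1 : ∃ C, fAl e Z j C ≠ 0 := by
    by_contra hc
    push Not at hc
    exact h (Finset.sum_eq_zero (fun C _ => hc C))
  obtain ⟨C, hC⟩ := h1
  refine ⟨C, ?_⟩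
  by_contra h4
  apply hC
  unfold fAl
  rw [if_neg h4]

theorem nonspecial {e : ι → β → ℕ} {full dem : ι → ℕ} {Z : J → Finset ι} {X : H → Finset ι}
    {I : J → Finset H} {gam : J → ℕ} (hB : DBase e full dem) (hL : DLoc e full dem)
    (h : IsCS e dem Z X I gam) (j : J) (hS : ¬ Sty e full dem Z X I gam j) :
    massJ e full dem Z X I gam j + ∑ i ∈ I j, (2 + eK e Z X i j) ≤
      9 * demA dem (Z j) + ∑ i ∈ I j, need e full dem Z X I gam i j := by
  have hU := sumU hB h j
  have hE := sumE hB h j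
  rw [sumIn hB j] at hE
  have h3 := sum3 hB h j
  have hm := mass5 hB j hS
  have hx := sum_xb h j
  have hneed : ∑ i ∈ I j, need e full dem Z X I gam i j =
      2 * (3 * ∑ C, fB1 e Z X I j C + 2 * ∑ C, fB2 e Z X I j C + ∑ C, fB3 e Z X I j C) +
        ∑ i ∈ I j, (if 8 ≤ eK e Z X i j then 2 else 0) := by
    rw [← hx, Finset.mul_sum, ← Finset.sum_add_distrib]
    apply Finset.sum_congr rfl
    intro i _
    unfold need
    rw [if_neg hS]
  have hsum2 : ∑ i ∈ I j, (2 + eK e Z X i j) = 2 * (I j).card + ∑ i ∈ I j, eK e Z X i j := by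
    rw [Finset.sum_add_distrib]
    simp [mul_comm]
  unfold massJ
  rw [hm, h3, hneed, hsum2]
  have hγ : (gam j = 1 ∧ (I j).card = 0) ∨ gam j = 2 := by
    rcases h.gam12 j with h1 | h1
    · left; exact ⟨h1.1, by rw [h1.2]; rfl⟩
    · right; exact h1
  have hm1 : ∑ C, min 9 (2 + eA e (Z j) C) * fUn e Z X I j C ≤
      2 * ∑ C, fUn e Z X I j C + ∑ C, eA e (Z j) C * fUn e Z X I j C := by
    rw [Finset.mul_sum, ← Finset.sum_add_distrib]
    apply Finset.sum_le_sum
    intro C _
    have h1 : min 9 (2 + eA e (Z j) C) ≤ 2 + eA e (Z j) C := min_le_right _ _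
    calc min 9 (2 + eA e (Z j) C) * fUn e Z X I j C
        ≤ (2 + eA e (Z j) C) * fUn e Z X I j C := Nat.mul_le_mul_right _ h1
      _ = 2 * fUn e Z X I j C + eA e (Z j) C * fUn e Z X I j C := by ring
  have hm2 : ∑ C, min 9 (2 + eA e (Z j) C) * fUn e Z X I j C ≤ 9 * ∑ C, fUn e Z X I j C := by
    rw [Finset.mul_sum]
    apply Finset.sum_le_sum
    intro C _
    exact Nat.mul_le_mul_right _ (min_le_left _ _)
  by_cases hA : ∀ s ∈ Z j, full s = 5 ∧ dem s = 1
  · -- case A
    have hD : demA dem (Z j) = (Z j).card := by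
      unfold demA
      rw [Finset.sum_congr rfl (fun s hs => (hA s hs).2)]
      simp
    rw [hD] at hU ⊢
    have hout : outA e (Z j) ≤ 5 * (Z j).card := by
      unfold outA
      calc ∑ s ∈ Z j, ∑ C, e s C ≤ ∑ s ∈ Z j, 5 := by
            apply Finset.sum_le_sum
            intro s hs
            have h1 := hB.le_full s
            rw [(hA s hs).1] at h1
            exact h1
        _ = 5 * (Z j).card := by simp [mul_comm]
    have hz1 : ∑ C, fUn e Z X I j C ≤ ∑ C, eA e (Z j) C * fUn e Z X I j C := by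
      apply Finset.sum_le_sum
      intro C _
      by_cases h1 : isUn e Z X I j C
      · have h2 : fUn e Z X I j C = 1 := by unfold fUn; rw [if_pos h1]
        have h3 := h1.2.2.1
        rw [h2]; omega
      · have h2 : fUn e Z X I j C = 0 := by unfold fUn; rw [if_neg h1]
        rw [h2]; omega
    have hz0 : ∑ C, fUn e Z X I j C = 0 → ∑ C, eA e (Z j) C * fUn e Z X I j C = 0 := by
      intro h0
      apply Finset.sum_eq_zero
      intro C hC
      rw [(Finset.sum_eq_zero_iff.mp h0) C hC, Nat.mul_zero]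
    have hIn : ∑ C, (dC e C - 5) * fIn e Z X I j C = 0 ∨
        2 ≤ ∑ C, (dC e C - 5) * fIn e Z X I j C := In_ge hB j
    have hov : (I j).card ≠ 0 → 2 ≤ ∑ i ∈ I j, eK e Z X i j +
        (∑ C, fB1 e Z X I j C + ∑ C, fB2 e Z X I j C + ∑ C, fB3 e Z X I j C) := by
      intro h0
      obtain ⟨i, hi⟩ := Finset.card_ne_zero.mp h0
      have h1 := ov2' h j i hi
      have h2 : eK e Z X i j ≤ ∑ i ∈ I j, eK e Z X i j :=
        Finset.single_le_sum (f := fun i => eK e Z X i j) (fun _ _ => Nat.zero_le _) hi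
      omega
    have hb0 : (I j).card = 0 → ∑ C, fB1 e Z X I j C = 0 ∧ ∑ C, fB2 e Z X I j C = 0 ∧
        ∑ C, fB3 e Z X I j C = 0 ∧ ∑ i ∈ I j, eK e Z X i j = 0 := by
      intro h0
      obtain ⟨q1, q2, q3⟩ := beta_hubs h j h0
      refine ⟨q1, q2, q3, ?_⟩
      rw [Finset.card_eq_zero.mp h0]
      simp
    have hsv : (I j).card = 1 → 8 ≤ ∑ i ∈ I j, eK e Z X i j →
        2 ≤ ∑ i ∈ I j, (if 8 ≤ eK e Z X i j then 2 else 0) := by
      intro h1 h8
      obtain ⟨i, hi⟩ := Finset.card_eq_one.mp h1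
      rw [hi] at h8 ⊢
      rw [Finset.sum_singleton] at h8 ⊢
      rw [if_pos h8]
    have hb3 : (Z j).card = 1 → ∑ C, fB3 e Z X I j C = 0 := by
      intro h1
      obtain ⟨s, hs⟩ := Finset.card_eq_one.mp h1
      apply Finset.sum_eq_zero
      intro C _
      unfold fB3
      rw [if_neg]
      rintro ⟨h2, h3⟩
      have h4 : eA e (Z j) C = e s C := by rw [hs]; unfold eA; simp
      have h5 := (mem_beta.mp h2).1
      have h6 := hB.simple s C (by omega)
      omega
    have hPall : ∀ C ∈ Finset.univ.filter (fun C => isIn e Z X I j C),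
        ∀ s, s ∉ Z j → e s C = 0 := by
      intro C hC
      exact eA_full e (Finset.mem_filter.mp hC).2.2.2
    have hcard := card_In e Z X I j
    have hP5 : ∑ C, (dC e C - 5) * fIn e Z X I j C = 0 →
        ∀ C ∈ Finset.univ.filter (fun C => isIn e Z X I j C), dC e C = 5 := by
      intro h0 C hC
      exact In_zero hB j h0 C (Finset.mem_filter.mp hC).2
    apply arithA (Z j).card _ _ (I j).card _ _ _ _ _ _ _ _ (outA e (Z j)) (gam j) _ _ hU hE hout hγ
      hm1 hm2 hz1 hz0 hIn (b1_hubs h j) hb0 hov hsv hb3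
    · -- cut2
      intro h0 h1 h2 h4
      obtain ⟨C0, c1, c2⟩ := exists_of_fAl (e := e) (Z := Z) (j := j) (by rw [h1]; omega)
      have hC0 : C0 ∉ Finset.univ.filter (fun C => isIn e Z X I j C) := by
        intro h5
        exact (Finset.mem_filter.mp h5).2.1 c1
      refine hL.cut2 (Z j) (insert C0 (Finset.univ.filter (fun C => isIn e Z X I j C))) ?_
        (fun s hs => (hA s hs).1) ?_ h4
      · intro C hC
        rcases Finset.mem_insert.mp hC with rfl | hC
        · exact eA_full e (by rw [c1, c2])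
        · exact hPall C hC
      · rw [Finset.sum_insert hC0, Finset.sum_congr rfl (hP5 h0)]
        simp only [Finset.sum_const, smul_eq_mul]
        rw [hcard]
        omega
    · -- T
      intro h0 h1 h2 h4
      obtain ⟨C0, c1, c2⟩ := exists_of_fAl (e := e) (Z := Z) (j := j) (by rw [h1]; omega)
      have hC0 : C0 ∉ Finset.univ.filter (fun C => isIn e Z X I j C) := by
        intro h5
        exact (Finset.mem_filter.mp h5).2.1 c1
      refine hL.locT (Z j) (Finset.univ.filter (fun C => isIn e Z X I j C)) C0 hC0 ?_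
        (fun s hs => (hA s hs).1) (hP5 h0) c1 ?_ h4
      · intro C hC
        rcases Finset.mem_insert.mp hC with rfl | hC
        · exact eA_full e (by rw [c1, c2])
        · exact hPall C hC
      · rw [hcard]
        omega
    · -- C
      intro h0 h1 h2 h4
      refine hL.locC (Z j) (Finset.univ.filter (fun C => isIn e Z X I j C)) hPall
        (fun s hs => (hA s hs).1) (hP5 h0) ?_ ?_ h4
      · rw [← Finset.card_pos, hcard]
        omega
      · rw [hcard]
        omega
    · -- special
      intro h1 h2 h4 h5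
      apply hS
      refine ⟨h1, hA, h5, h2, ?_⟩
      rw [← Finset.card_eq_zero, beta_card h j]
      exact h4
  · -- case B
    have hout : 2 * outA e (Z j) + 14 ≤ 10 * demA dem (Z j) := by
      push Not at hA
      obtain ⟨s0, hs0, hs1⟩ := hA
      have h1 : ∀ s, 2 * ∑ C, e s C ≤ 10 * dem s := by
        intro s
        have h1 := hB.le_full s
        rcases hB.kind s with ⟨h2, h3⟩ | ⟨h2, h3⟩
        · rcases h3 with h3 | h3 <;> omega
        · omega
      have h2 : 2 * ∑ C, e s0 C + 14 ≤ 10 * dem s0 := by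
        have h1 := hB.le_full s0
        rcases hB.kind s0 with ⟨h2, h3⟩ | ⟨h2, h3⟩
        · rcases h3 with h3 | h3
          · exact absurd h3 (hs1 h2)
          · omega
        · omega
      unfold outA demA
      rw [← Finset.add_sum_erase _ _ hs0, ← Finset.add_sum_erase _ (fun s => dem s) hs0]
      have h3 : 2 * ∑ s ∈ (Z j).erase s0, ∑ C, e s C ≤ 10 * ∑ s ∈ (Z j).erase s0, dem s := by
        rw [Finset.mul_sum, Finset.mul_sum]
        exact Finset.sum_le_sum (fun s _ => h1 s)
      omega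
    exact arithB _ _ _ _ _ _ _ _ _ _ _ _ (outA e (Z j)) (gam j) _ _ hU hE hout hγ hm1

theorem special {e : ι → β → ℕ} {full dem : ι → ℕ} {Z : J → Finset ι} {X : H → Finset ι}
    {I : J → Finset H} {gam : J → ℕ} (hB : DBase e full dem) (j : J)
    (hS : Sty e full dem Z X I gam j)
    (h2s : (∀ C, eA e (Z j) C ≤ 3) ∧ (∀ i ∈ I j, 2 ≤ eK e Z X i j ∧ eK e Z X i j ≤ 3) ∧
    ((Finset.univ.filter (fun C => dC e C ≠ 3 ∧ (∀ i ∈ I j, eA e (X i) C = 0) ∧
        eA e (Z j) C ≠ 0)).card + (I j).card +
      ∑ C ∈ Finset.univ.filter (fun C => dC e C = 3), eA e (Z j) C = 3)) :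
    massJ e full dem Z X I gam j + ∑ i ∈ I j, (2 + eK e Z X i j) ≤
      9 * demA dem (Z j) + ∑ i ∈ I j, need e full dem Z X I gam i j := by
  obtain ⟨q1, q2, q3⟩ := h2s
  have hD : demA dem (Z j) = 1 := by
    unfold demA
    rw [Finset.sum_congr rfl (fun s hs => (hS.2.1 s hs).2)]
    simp [hS.1]
  have hm : ∑ C ∈ Finset.univ.filter (fun C => dC e C ≠ 3 ∧ ∀ i ∈ I j, eA e (X i) C = 0),
      allow e full dem Z X I gam j C =
      3 * (Finset.univ.filter (fun C => dC e C ≠ 3 ∧ (∀ i ∈ I j, eA e (X i) C = 0) ∧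
        eA e (Z j) C ≠ 0)).card := by
    rw [Finset.card_eq_sum_ones, Finset.mul_sum, Finset.sum_filter, Finset.sum_filter]
    apply Finset.sum_congr rfl
    intro C _
    by_cases h1 : dC e C ≠ 3 ∧ ∀ i ∈ I j, eA e (X i) C = 0
    · rw [if_pos h1]
      unfold allow
      have h5 := ge5 hB h1.1
      have h6 := q1 C
      by_cases h7 : eA e (Z j) C = 0
      · rw [if_pos h7, if_neg (fun h8 => h8.2.2 h7)]
      · rw [if_neg h7, if_neg (by omega), if_pos hS, if_pos ⟨h1.1, h1.2, h7⟩]
        rfl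
    · rw [if_neg h1, if_neg (fun h8 => h1 ⟨h8.1, h8.2.1⟩)]
  have hneed : ∑ i ∈ I j, need e full dem Z X I gam i j + 3 * (I j).card =
      ∑ i ∈ I j, (2 + eK e Z X i j) := by
    have : 3 * (I j).card = ∑ i ∈ I j, 3 := by simp [mul_comm]
    rw [this, ← Finset.sum_add_distrib]
    apply Finset.sum_congr rfl
    intro i hi
    unfold need xb
    rw [if_pos hS, hS.2.2.2.2]
    have := (q2 i hi).1
    simp only [Finset.sum_empty]
    omega
  unfold massJ
  rw [hm, hD, ← hneed]
  omega

/-- Part D2a. -/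
theorem d2a (h2s : StmtD2s) : StmtD2a := by
  intro ι β J H _ _ _ _ e full dem Z X I gam hB hL hCS j
  by_cases hS : Sty e full dem Z X I gam j
  · exact special hB j hS (h2s ι β J H e full dem Z X I gam hB hCS j hS)
  · exact nonspecial hB hL hCS j hS

end Pool.Agent.H11.F14
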